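import Pool.Agent.helper82.CH.SpecA

/-!
# Project CH (MP_2e0e07_nt), row TSL: the sum over the ideals is the L-series of the coefficients
-/

set_option autoImplicit false

open NumberField Complex Pool.Agent.UN

namespace Pool.Agent.CH

theorem TSL_fib {F : Type} [Field F] [NumberField F] {α : Type} [AddCommMonoid α] [TopologicalSpace α] (n : ℕ) (h : Ideal (𝓞 F) → α) :
    ∑' y : {a : Ideal (𝓞 F) // Ideal.absNorm a = n}, h y = ∑ a ∈ idl F n, h a := by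
  have h1 : ((idl F n : Finset (Ideal (𝓞 F))) : Set (Ideal (𝓞 F))) = {a | Ideal.absNorm a = n} := Set.Finite.coe_toFinset _
  have h2 : ∑' y : ((idl F n : Finset (Ideal (𝓞 F))) : Set (Ideal (𝓞 F))), h y = ∑ a ∈ idl F n, h a := Finset.tsum_subtype' _ _
  rw [h1] at h2
  exact h2

theorem TSL_mem {F : Type} [Field F] [NumberField F] {n : ℕ} {a : Ideal (𝓞 F)} (h : a ∈ idl F n) : Ideal.absNorm a = n := by
  unfold idl at h
  rw [Set.Finite.mem_toFinset] at h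
  exact h

theorem TSL_term {F : Type} [Field F] [NumberField F] {χ : Ideal (𝓞 F) → ℂ} (hχ : CM χ) (s : ℂ) (n : ℕ) :
    ∑ a ∈ idl F n, χ a * (Nm a : ℂ) ^ (-s) = LSeries.term (cc χ) s n := by
  by_cases hn : n = 0
  · subst hn
    rw [LSeries.term_zero]
    refine Finset.sum_eq_zero fun a ha => ?_
    have h1 : a = ⊥ := Ideal.absNorm_eq_zero_iff.1 (TSL_mem ha)
    rw [h1, hχ.bot, zero_mul]
  · rw [LSeries.term_of_ne_zero hn]
    have h1 : ∀ a ∈ idl F n, χ a * (Nm a : ℂ) ^ (-s) = χ a * ((n : ℂ) ^ s)⁻¹ := by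
      intro a ha
      have h2 : (Nm a : ℂ) = (n : ℂ) := by
        unfold Nm
        rw [TSL_mem ha, Complex.ofReal_natCast]
      rw [h2, Complex.cpow_neg]
    rw [Finset.sum_congr rfl h1, ← Finset.sum_mul, div_eq_mul_inv]
    rfl

theorem TSL_norm {F : Type} [Field F] [NumberField F] {χ : Ideal (𝓞 F) → ℂ} (hχ : CM χ) (s : ℂ) (n : ℕ) :
    ∑ a ∈ idl F n, ‖χ a * (Nm a : ℂ) ^ (-s)‖ = ‖LSeries.term (cc fun a => ((‖χ a‖ : ℝ) : ℂ)) s n‖ := by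
  by_cases hn : n = 0
  · subst hn
    rw [LSeries.term_zero, norm_zero]
    refine Finset.sum_eq_zero fun a ha => ?_
    have h1 : a = ⊥ := Ideal.absNorm_eq_zero_iff.1 (TSL_mem ha)
    rw [h1, hχ.bot, zero_mul, norm_zero]
  · rw [LSeries.term_of_ne_zero hn, norm_div]
    have h1 : ∀ a ∈ idl F n, ‖χ a * (Nm a : ℂ) ^ (-s)‖ = ‖χ a‖ * ‖(n : ℂ) ^ s‖⁻¹ := by
      intro a ha
      have h2 : (Nm a : ℂ) = (n : ℂ) := by
        unfold Nm
        rw [TSL_mem ha, Complex.ofReal_natCast]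
      rw [h2, Complex.cpow_neg, norm_mul, norm_inv]
    rw [Finset.sum_congr rfl h1, ← Finset.sum_mul, div_eq_mul_inv]
    congr 1
    unfold cc
    rw [← Complex.ofReal_sum, Complex.norm_real, Real.norm_of_nonneg (Finset.sum_nonneg fun a _ => norm_nonneg _)]

theorem TSL_cm {F : Type} [Field F] [NumberField F] {χ : Ideal (𝓞 F) → ℂ} (hχ : CM χ) : CM fun a => ((‖χ a‖ : ℝ) : ℂ) := by
  refine ⟨?_, ?_, ?_, ?_⟩
  · show ((‖χ ⊥‖ : ℝ) : ℂ) = 0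
    rw [hχ.bot, norm_zero, Complex.ofReal_zero]
  · show ((‖χ ⊤‖ : ℝ) : ℂ) = 1
    rw [hχ.one, norm_one, Complex.ofReal_one]
  · intro a b
    show ((‖χ (a * b)‖ : ℝ) : ℂ) = ((‖χ a‖ : ℝ) : ℂ) * ((‖χ b‖ : ℝ) : ℂ)
    rw [hχ.mul, norm_mul, Complex.ofReal_mul]
  · intro a
    show ‖((‖χ a‖ : ℝ) : ℂ)‖ ≤ 1
    rw [Complex.norm_real, norm_norm]
    exact hχ.bd a

theorem TSL_summable (hCSM : CSM_stmt) (F : Type) [Field F] [NumberField F] (χ : Ideal (𝓞 F) → ℂ) (hχ : CM χ) (s : ℂ) (hs : 1 < s.re) :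
    Summable fun a : Ideal (𝓞 F) => χ a * (Nm a : ℂ) ^ (-s) := by
  let e : (Σ n : ℕ, {a : Ideal (𝓞 F) // Ideal.absNorm a = n}) ≃ Ideal (𝓞 F) := Equiv.sigmaFiberEquiv fun a : Ideal (𝓞 F) => Ideal.absNorm a
  have h1 : Summable fun a : Ideal (𝓞 F) => ‖χ a * (Nm a : ℂ) ^ (-s)‖ := by
    rw [← e.summable_iff]
    have h0 : ∀ x : (Σ n : ℕ, {a : Ideal (𝓞 F) // Ideal.absNorm a = n}), 0 ≤ ((fun a : Ideal (𝓞 F) => ‖χ a * (Nm a : ℂ) ^ (-s)‖) ∘ e) x :=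
      fun _ => norm_nonneg _
    refine (summable_sigma_of_nonneg h0).2 ⟨fun n => ?_, ?_⟩
    · haveI : Finite {a : Ideal (𝓞 F) // Ideal.absNorm a = n} := (Ideal.finite_setOfPred_absNorm_eq (S := 𝓞 F) n)
      exact Summable.of_finite
    · have h2 : (fun n : ℕ => ∑' y : {a : Ideal (𝓞 F) // Ideal.absNorm a = n}, ‖χ y * (Nm (y : Ideal (𝓞 F)) : ℂ) ^ (-s)‖) =
          fun n => ‖LSeries.term (cc fun a => ((‖χ a‖ : ℝ) : ℂ)) s n‖ := by
        funext n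
        rw [TSL_fib n (fun a => ‖χ a * (Nm a : ℂ) ^ (-s)‖), TSL_norm hχ s n]
      have h3 : Summable fun n => ‖LSeries.term (cc fun a => ((‖χ a‖ : ℝ) : ℂ)) s n‖ :=
        ((hCSM F _ (TSL_cm hχ) s hs).1).norm
      rw [← h2] at h3
      exact h3
  exact h1.of_norm

theorem TSL (hCSM : CSM_stmt) : TSL_stmt := by
  intro F _ _ χ hχ s hs
  let e : (Σ n : ℕ, {a : Ideal (𝓞 F) // Ideal.absNorm a = n}) ≃ Ideal (𝓞 F) := Equiv.sigmaFiberEquiv fun a : Ideal (𝓞 F) => Ideal.absNorm a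
  have h1 := TSL_summable hCSM F χ hχ s hs
  have h2 : Summable fun x : (Σ n : ℕ, {a : Ideal (𝓞 F) // Ideal.absNorm a = n}) => χ (e x) * (Nm (e x) : ℂ) ^ (-s) :=
    e.summable_iff.2 h1
  rw [← e.tsum_eq, h2.tsum_sigma]
  unfold LSeries
  refine tsum_congr fun n => ?_
  rw [← TSL_term hχ s n, ← TSL_fib n (fun a => χ a * (Nm a : ℂ) ^ (-s))]
  rfl

end Pool.Agent.CH
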