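import Pool.Agent.helper17.CH.SpecV

/-! # Project CH, row LIN: Linnik's lemma -/

set_option autoImplicit false

namespace Pool.Agent.CH

open Finset

private theorem LIN_dvd (p k j : ℕ) (A : ℤ) (hj : j ≤ k) (v : ℤ) (hA : (p : ℤ) ^ j ∣ A)
    (hv : (A / (p : ℤ) ^ j) % (p : ℤ) ^ (k - j) = v) (hp : 0 < p) : (p : ℤ) ^ k ∣ A - (p : ℤ) ^ j * v := by
  obtain ⟨B, rfl⟩ := hA
  have hp0 : (p : ℤ) ^ j ≠ 0 := pow_ne_zero _ (by exact_mod_cast hp.ne')
  rw [Int.mul_ediv_cancel_left _ hp0] at hv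
  have h1 : (p : ℤ) ^ (k - j) ∣ B - v := by
    rw [← hv]
    exact ⟨B / (p : ℤ) ^ (k - j), by have := Int.emod_add_mul_ediv B ((p : ℤ) ^ (k - j)); linarith⟩
  have h2 : (p : ℤ) ^ k = (p : ℤ) ^ j * (p : ℤ) ^ (k - j) := by
    rw [← pow_add, Nat.add_sub_cancel' hj]
  rw [h2, ← mul_sub]
  exact mul_dvd_mul_left _ h1

private theorem LIN_sum (k : ℕ) : ∑ j : Fin k, (k - (j.val + 1)) = k * (k - 1) / 2 := by
  rw [Fin.sum_univ_eq_sum_range (fun j => k - (j + 1)) k]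
  have h1 := Finset.sum_range_reflect (fun j => j) k
  rw [Finset.sum_range_id] at h1
  rw [← h1]
  refine Finset.sum_congr rfl fun j _ => ?_
  omega

/-- **LIN**. -/
theorem LIN (h1 : LINA_stmt) : LIN_stmt := by
  classical
  intro k p a h hp hkp
  have ht : #(Fintype.piFinset fun j : Fin k => Ico (0 : ℤ) ((p : ℤ) ^ (k - (j.val + 1)))) = p ^ (k * (k - 1) / 2) := by
    rw [Fintype.card_piFinset]
    have : ∀ j : Fin k, #(Ico (0 : ℤ) ((p : ℤ) ^ (k - (j.val + 1)))) = p ^ (k - (j.val + 1)) := by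
      intro j
      rw [Int.card_Ico, sub_zero, ← Nat.cast_pow, Int.toNat_natCast]
    rw [Finset.prod_congr rfl fun j _ => this j, Finset.prod_pow_eq_pow_sum, LIN_sum]
  rw [← ht]
  refine Finset.card_le_mul_card_image_of_maps_to
    (f := fun (m : Fin k → ℤ) (j : Fin k) =>
      ((∑ i, m i ^ (j.val + 1) - h (j.val + 1)) / (p : ℤ) ^ (j.val + 1)) % (p : ℤ) ^ (k - (j.val + 1)))
    ?_ _ ?_
  · intro m _
    rw [Fintype.mem_piFinset]
    intro j
    have hpos : (0 : ℤ) < (p : ℤ) ^ (k - (j.val + 1)) := pow_pos (by exact_mod_cast hp.pos) _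
    rw [Finset.mem_Ico]
    exact ⟨Int.emod_nonneg _ hpos.ne', Int.emod_lt_of_pos _ hpos⟩
  · intro v _
    refine le_trans (Finset.card_le_card ?_) (h1 k p a
      (fun j => h j + (p : ℤ) ^ j * (if hj : j - 1 < k then v ⟨j - 1, hj⟩ else 0)) hp hkp)
    intro m hm
    rw [Finset.mem_filter, Finset.mem_filter] at hm
    obtain ⟨⟨hm1, hm2, hm3⟩, hm4⟩ := hm
    rw [Finset.mem_filter]
    refine ⟨hm1, hm2, ?_⟩
    intro j hj
    have hj' := Finset.mem_Icc.1 hj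
    have hlt : j - 1 < k := by omega
    have hj1 : j - 1 + 1 = j := by omega
    rw [dif_pos hlt]
    have h5 := congrFun hm4 ⟨j - 1, hlt⟩
    simp only [hj1] at h5
    have h6 := LIN_dvd p k j (∑ i, m i ^ j - h j) hj'.2 _ (hm3 j hj) h5 hp.pos
    have h7 : ∑ i, m i ^ j - (h j + (p : ℤ) ^ j * v ⟨j - 1, hlt⟩) =
        ∑ i, m i ^ j - h j - (p : ℤ) ^ j * v ⟨j - 1, hlt⟩ := by ring
    rw [h7]
    exact h6

end Pool.Agent.CH
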